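import Pool.Agent.Work.MP_1ea053_pw.MainC

/-!
# MP_1ea053_nt (Erdos problem 287): the total excess of the gaps over 2 is at least a power of the largest denominator

For a finite set `S` of positive integers, the total excess is the sum of `max (0, y - x - 2)` over the pairs `x < y` of
consecutive elements of `S` (subtraction of natural numbers is truncated).

For every `D ≥ 1`, all but finitely many finite sets `S` of at least two positive integers whose sum of reciprocals is at
least `1` and in `(1 / D) ℤ` have total excess at least `(max S) ^ (19 / 20)`.  For `D = 1` and sum `1` these sets are the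
solutions of the problem.
-/

set_option autoImplicit false

namespace Pool.Agent.Results.MP_1ea053_nt.PowerExcess

/-- Only finitely many finite sets `S` of at least two positive integers with sum of reciprocals `≥ 1` and in `(1 / D) ℤ`
have total excess (the sum of `max (0, y - x - 2)` over consecutive elements `x < y`) less than `(max S) ^ (19 / 20)`. -/
theorem result (D : ℕ) (hD : 0 < D) : {S : Finset ℕ | 2 ≤ S.card ∧ (∀ x ∈ S, 0 < x) ∧
    1 ≤ ∑ x ∈ S, (1 : ℚ) / x ∧ (∃ z : ℕ, (D : ℚ) * ∑ x ∈ S, (1 : ℚ) / x = z) ∧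
    ((∑ x ∈ S, ∑ y ∈ S.filter (fun y => x < y ∧ ∀ z ∈ S, z ≤ x ∨ y ≤ z), (y - x - 2) : ℕ) : ℝ) <
      ((S.sup id : ℕ) : ℝ) ^ (19 / 20 : ℝ)}.Finite := by
  refine (Pool.Agent.GapTwo.finalC D hD).subset ?_
  rintro S ⟨h1, h2, h3, h4, h5⟩
  refine ⟨h1, h2, h3, h4, ?_⟩
  have h6 := Pool.Agent.GapTwo.miss_le S
  have h7 : (({m : ℕ | m ∉ S ∧ m + 1 ∉ S ∧ (∃ x ∈ S, x < m) ∧ ∃ y ∈ S, m + 1 < y}.ncard : ℕ) : ℝ) ≤
      ((∑ x ∈ S, ∑ y ∈ S.filter (fun y => x < y ∧ ∀ z ∈ S, z ≤ x ∨ y ≤ z), (y - x - 2) : ℕ) : ℝ) :=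
    Nat.cast_le.2 h6
  have h8 : (95 / 100 : ℝ) = 19 / 20 := by norm_num
  rw [h8]
  exact lt_of_le_of_lt h7 h5

end Pool.Agent.Results.MP_1ea053_nt.PowerExcess
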